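import Mathlib
import Pool.Agent.Y882.GX.Sm
import Pool.Agent.Y877.SxJ

/-!
# Indices `q ≤ m ^ θ` in a dense set, for which `p_{q + 2} + h` is prime, for almost all shifts `h`
-/

set_option autoImplicit false

namespace Pool.Agent.P8H6.Evn

open Finset
open Pool.Agent.H373R2.T7 (ev_L' ev_log' Vz)

/-- the `k`-th prime -/
noncomputable def p (k : ℕ) : ℕ := Nat.nth Nat.Prime (k - 1)

theorem nth_inj : Function.Injective (Nat.nth Nat.Prime) := Nat.nth_injective Nat.infinite_setOfPred_prime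

theorem Vz_pos (y : ℕ) : 0 < Vz y := by
  unfold Vz
  apply prod_pos
  intro q hq
  have h1 : q.Prime := by
    unfold Pool.Agent.H373R2.T7.pz at hq
    exact (mem_filter.1 hq).2
  have h2 : (2 : ℝ) ≤ q := by exact_mod_cast h1.two_le
  have h3 : 1 / (q : ℝ) ≤ 1 / 2 := one_div_le_one_div_of_le (by norm_num) h2
  linarith

theorem core (θ : ℝ) (hθ0 : 0 < θ) (hθ1 : θ ≤ 1) (A C : ℕ) (ε : ℝ) (hε : 0 < ε) (hε1 : ε ≤ 1) :
    ∃ K₀ : ℕ, ∀ K₁ : ℕ, ∃ m₀ : ℕ, ∀ m : ℕ, m₀ ≤ m →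
    ∀ y : ℕ, K₀ * Real.log (Real.log m) ≤ y → y ≤ K₁ * Real.log (Real.log m) →
    ∀ g₀ G : ℕ, ((primorial y * (g₀ + G) : ℕ) : ℝ) ≤ (m : ℝ) ^ θ →
      (m : ℝ) ^ θ ≤ primorial y * G * Real.log m ^ C →
    ∀ J : Finset ℕ, (∀ q ∈ J, (q : ℝ) ≤ (m : ℝ) ^ θ) → (m : ℝ) ^ θ ≤ J.card * Real.log m ^ A →
      (((Icc 1 G).filter (fun t => ((J.filter (fun q => (p (q + 2) + primorial y * (g₀ + t)).Prime)).card : ℝ) <
        (1 - ε) * (J.card / (Vz y * (θ * Real.log m))))).card : ℝ) ≤ ε * G := by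
  classical
  obtain ⟨Ka, hKa⟩ := Pool.Agent.Y877.SX.step 1 (Or.inl rfl) (A + 1) 5 (C + 1) (ε / 2) (by positivity)
    (by linarith)
  refine ⟨Ka, fun K₁ => ?_⟩
  obtain ⟨na, hna⟩ := hKa (2 * K₁)
  obtain ⟨n4, hn4⟩ := Pool.Agent.Y877.SX.nth_le_log
  -- the conditions on `n = ⌈m ^ θ⌉`
  have hev : ∀ᶠ m : ℕ in Filter.atTop, ((na : ℝ) + n4 + 4) ≤ (m : ℝ) ^ θ ∧
      2 * (2 / θ) ^ A ≤ θ * Real.log m ∧ 2 * (2 / θ) ^ C ≤ θ * Real.log m ∧
      4 / (ε * θ) ≤ Real.log m ∧ Real.exp (4 / θ) ≤ Real.log m ∧ 4 / θ ≤ Real.log (Real.log m) ∧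
      (4 / θ) ≤ Real.log m ∧ 3 ≤ m := by
    have t1 : Filter.Tendsto (fun m : ℕ => (m : ℝ) ^ θ) Filter.atTop Filter.atTop :=
      (tendsto_rpow_atTop hθ0).comp tendsto_natCast_atTop_atTop
    have t2 : Filter.Tendsto (fun m : ℕ => Real.log (m : ℝ)) Filter.atTop Filter.atTop :=
      Real.tendsto_log_atTop.comp tendsto_natCast_atTop_atTop
    have t3 : Filter.Tendsto (fun m : ℕ => θ * Real.log (m : ℝ)) Filter.atTop Filter.atTop :=
      t2.const_mul_atTop hθ0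
    have t4 : Filter.Tendsto (fun m : ℕ => Real.log (Real.log (m : ℝ))) Filter.atTop Filter.atTop :=
      Real.tendsto_log_atTop.comp t2
    filter_upwards [t1.eventually_ge_atTop ((na : ℝ) + n4 + 4), t3.eventually_ge_atTop (2 * (2 / θ) ^ A),
      t3.eventually_ge_atTop (2 * (2 / θ) ^ C), t2.eventually_ge_atTop (4 / (ε * θ)),
      t2.eventually_ge_atTop (Real.exp (4 / θ)), t4.eventually_ge_atTop (4 / θ),
      t2.eventually_ge_atTop (4 / θ), Filter.eventually_ge_atTop 3] with m a1 a2 a3 a4 a5 a6 a7 a8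
    exact ⟨a1, a2, a3, a4, a5, a6, a7, a8⟩
  obtain ⟨m₀, hm₀⟩ := Filter.eventually_atTop.1 hev
  refine ⟨m₀, fun m hm y hy1 hy2 g₀ G hg1 hg2 J hJ1 hJ2 => ?_⟩
  obtain ⟨e1, e2, e3, e4, e5, e6, e7, e8⟩ := hm₀ m hm
  obtain ⟨x, hx⟩ : ∃ x, x = (m : ℝ) ^ θ := ⟨_, rfl⟩
  obtain ⟨L, hL⟩ : ∃ L, L = Real.log m := ⟨_, rfl⟩
  rw [← hx] at e1 hg1 hg2 hJ1 hJ2
  have hm3 : (3 : ℝ) ≤ m := by exact_mod_cast e8
  have hm0 : (0 : ℝ) < m := by linarith
  have hna0 : (0 : ℝ) ≤ na := Nat.cast_nonneg na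
  have hnb0 : (0 : ℝ) ≤ n4 := Nat.cast_nonneg n4
  have hx4 : 4 ≤ x := by linarith
  have hx0 : 0 < x := by linarith
  have hxm : x ≤ m := by
    rw [hx]
    calc (m : ℝ) ^ θ ≤ (m : ℝ) ^ (1 : ℝ) := Real.rpow_le_rpow_of_exponent_le (by linarith) hθ1
      _ = m := Real.rpow_one _
  obtain ⟨n, hn⟩ : ∃ n, n = ⌈x⌉₊ := ⟨_, rfl⟩
  have hxn : x ≤ n := by rw [hn]; exact Nat.le_ceil _
  have hnx : (n : ℝ) ≤ 2 * x := by
    have h1 : (n : ℝ) < x + 1 := by rw [hn]; exact Nat.ceil_lt_add_one hx0.le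
    linarith
  have hnm : n ≤ m := by
    rw [hn]
    exact Nat.ceil_le.2 hxm
  have hn0 : (0 : ℝ) < n := by linarith
  have hna' : na ≤ n := by
    have h1 : (na : ℝ) ≤ n := by linarith
    exact_mod_cast h1
  have hn4' : n4 ≤ n := by
    have h1 : (n4 : ℝ) ≤ n := by linarith
    exact_mod_cast h1
  have hlogx : Real.log x = θ * L := by rw [hx, Real.log_rpow hm0, hL]
  have hln1 : θ * L ≤ Real.log n := by
    rw [← hlogx]
    exact Real.log_le_log hx0 hxn
  have hln2 : Real.log n ≤ θ * L + 1 := by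
    have h1 : Real.log n ≤ Real.log (2 * x) := Real.log_le_log hn0 hnx
    rw [Real.log_mul (by norm_num) hx0.ne', hlogx] at h1
    have h2 : Real.log 2 ≤ 1 := by
      have := Real.log_two_lt_d9
      linarith
    linarith
  rw [← hL] at e2 e3 e4 e5 e6 e7 hg2 hJ2 hy1 hy2 ⊢
  have hθL4 : 4 ≤ θ * L := by
    rw [div_le_iff₀ hθ0] at e7
    linarith
  have hL4 : 4 ≤ L := by
    have h1 : θ * L ≤ 1 * L := by
      apply mul_le_mul_of_nonneg_right hθ1
      have : 0 < L := by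
        by_contra h
        nlinarith
      exact this.le
    linarith
  have hL0 : 0 < L := by linarith
  have hln0 : 0 < Real.log n := by linarith
  have hlnm : Real.log n ≤ L := by
    rw [hL]
    exact Real.log_le_log hn0 (by exact_mod_cast hnm)
  have hLn : L ≤ (2 / θ) * Real.log n := by
    rw [div_mul_eq_mul_div, le_div_iff₀ hθ0]
    nlinarith
  have hll0 : 0 ≤ Real.log (Real.log n) := Real.log_nonneg (by linarith)
  -- the range of `y`
  have hya : (Ka : ℝ) * Real.log (Real.log n) ≤ y := by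
    refine le_trans ?_ hy1
    apply mul_le_mul_of_nonneg_left _ (Nat.cast_nonneg _)
    exact Real.log_le_log hln0 hlnm
  have hll2 : Real.log L ≤ 2 * Real.log (Real.log n) := by
    have h1 : Real.log L ≤ Real.log ((2 / θ) * Real.log n) := Real.log_le_log hL0 hLn
    rw [Real.log_mul (by positivity) hln0.ne'] at h1
    have h2 : Real.log (2 / θ) ≤ 2 / θ := (Real.log_le_sub_one_of_pos (by positivity)).trans (by linarith)
    have h3 : 4 / θ = 2 * (2 / θ) := by ring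
    rw [h3] at e6
    linarith
  have hyb : (y : ℝ) ≤ ((2 * K₁ : ℕ) : ℝ) * Real.log (Real.log n) := by
    refine hy2.trans ?_
    push_cast
    have : (0 : ℝ) ≤ K₁ := Nat.cast_nonneg _
    nlinarith
  -- powers of the logarithm
  have hpow : ∀ D : ℕ, 2 * (2 / θ) ^ D ≤ θ * L → 2 * L ^ D ≤ Real.log n ^ (D + 1) := by
    intro D hD
    calc 2 * L ^ D ≤ 2 * ((2 / θ) * Real.log n) ^ D := by gcongr
      _ = (2 * (2 / θ) ^ D) * Real.log n ^ D := by rw [mul_pow]; ring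
      _ ≤ Real.log n * Real.log n ^ D := by
          apply mul_le_mul_of_nonneg_right _ (by positivity)
          linarith
      _ = Real.log n ^ (D + 1) := by ring
  have hJn : (n : ℝ) ≤ J.card * Real.log n ^ (A + 1) := by
    calc (n : ℝ) ≤ 2 * x := hnx
      _ ≤ 2 * (J.card * L ^ A) := by linarith
      _ = J.card * (2 * L ^ A) := by ring
      _ ≤ J.card * Real.log n ^ (A + 1) := mul_le_mul_of_nonneg_left (hpow A e2) (Nat.cast_nonneg _)
  have hGn : (n : ℝ) ^ 1 ≤ primorial y * G * Real.log n ^ (C + 1) := by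
    rw [pow_one]
    calc (n : ℝ) ≤ 2 * x := hnx
      _ ≤ 2 * (primorial y * G * L ^ C) := by linarith
      _ = primorial y * G * (2 * L ^ C) := by ring
      _ ≤ primorial y * G * Real.log n ^ (C + 1) := mul_le_mul_of_nonneg_left (hpow C e3) (by positivity)
  have hGu : primorial y * (g₀ + G) ≤ n ^ 1 := by
    rw [pow_one]
    have : ((primorial y * (g₀ + G) : ℕ) : ℝ) ≤ n := hg1.trans hxn
    exact_mod_cast this
  have hf : ∀ q ∈ J, (p (q + 2)).Prime ∧ (p (q + 2) : ℝ) ≤ n * Real.log n ^ 5 := by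
    intro q hq
    refine ⟨Nat.prime_nth_prime _, ?_⟩
    have h1 : (q : ℝ) ≤ n := (hJ1 q hq).trans hxn
    have h2 : q ≤ n := by exact_mod_cast h1
    have hn4r : (4 : ℝ) ≤ n := hx4.trans hxn
    have h3 : 4 ≤ n := by exact_mod_cast hn4r
    refine (hn4 n hn4' (q + 2 - 1) (by omega)).trans ?_
    apply mul_le_mul_of_nonneg_left _ hn0.le
    exact pow_le_pow_right₀ (by linarith) (by norm_num)
  have hi : Set.InjOn (fun q => p (q + 2)) (J : Set ℕ) := by
    intro a _ b _ hab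
    have := nth_inj hab
    omega
  have h1 := hna n hna' y hya hyb J hJn (fun q => p (q + 2)) hi hf g₀ G hGu hGn
  have hV := Vz_pos y
  refine le_trans ?_ (h1.trans ?_)
  · rw [Nat.cast_le]
    apply card_le_card
    intro t ht
    rw [mem_filter] at ht ⊢
    refine ⟨ht.1, ?_⟩
    simp only [pow_one]
    refine lt_of_lt_of_le ht.2 ?_
    push_cast
    rw [one_mul]
    have hc : (0 : ℝ) ≤ J.card := Nat.cast_nonneg _
    rw [← mul_div_assoc, ← mul_div_assoc, div_le_div_iff₀ (by positivity) (by positivity)]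
    have h2 : (1 - ε) * Real.log n ≤ (1 - ε / 2) * (θ * L) := by
      have h3 : 4 ≤ L * (ε * θ) := by rwa [div_le_iff₀ (by positivity)] at e4
      have h4 : (1 - ε) * Real.log n ≤ (1 - ε) * (θ * L + 1) := mul_le_mul_of_nonneg_left hln2 (by linarith)
      nlinarith
    calc (1 - ε) * J.card * (Vz y * Real.log n) = (J.card * Vz y) * ((1 - ε) * Real.log n) := by ring
      _ ≤ (J.card * Vz y) * ((1 - ε / 2) * (θ * L)) := mul_le_mul_of_nonneg_left h2 (by positivity)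
      _ = (1 - ε / 2) * J.card * (Vz y * (θ * L)) := by ring
  · have : (0 : ℝ) ≤ G := Nat.cast_nonneg _
    nlinarith

end Pool.Agent.P8H6.Evn
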